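import Mathlib
import Pool.Agent.TH497.PW.IntFlow
import Pool.Agent.TH362.FP.Pos
import Pool.Agent.Y335.FL.Main
import Pool.Agent.L0h99.OD.Hm

set_option autoImplicit false

/-!
# Bond matroids of graphs with small matching number are 5-colourable (MP_9f8812_co)

Let `G` be a bridgeless multigraph, `S` a set of vertices and `a` a natural number with
`2 a + |S| ≤ 125`.  Suppose that every independent set of vertices of degree at least three outside
`S` which can be matched into its neighbourhood has at most `a` elements; in other words, there are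
no `a + 1` disjoint edges `x_i y_i` such that the `x_i` are pairwise non-adjacent, have degree at
least three and are not in `S`.  Then the chromatic number of the bond matroid of `G` (a binary
matroid without `M(K_5)` minor) is at most five: `G` has a nowhere-zero 5-flow.

With `S = ∅` and `a = 62` this holds for all bridgeless graphs of matching number at most `62`
(`matchingNumber`).  The starting files have matching number at most `31` and independence number at
most `62`; both are contained in the present result.  Tutte's 12-cage has matching number `63`.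

Proof.  The class is closed under contractions (not under deletions).  Let `G` be a counterexample
with as few edges as possible; it has girth at least twelve and all degrees are at least three
(starting files).  Let `x`, `y` be adjacent.  The vertices at odd distance at most five from `x` or
even distance at most five from `y` (the distances are taken in the tree around the edge) form an
independent set with at least `63` elements, and so do the others, so one of the two sets has at
least `a + 1` elements outside `S`.  Every independent set `P` with at most `63` vertices can be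
matched into its neighbourhood: otherwise let `X` be a minimal violating set for Hall's condition.
Then `X` and its neighbours form a graph with at most `125` vertices, minimum degree two and average
degree more than three, against the Moore bound for irregular graphs of girth twelve (Alon, Hoory
and Linial).
-/

namespace Pool.Agent.Results.MP_9f8812_co.MatchedIndependentSets

open Pool.Agent.TH497.PW Pool.Agent.L0h99.OD

variable {V E : Type}

/-- The edges with exactly one end in `X`. -/
def boundary [DecidableEq V] [Fintype E] (src dst : E → V) (X : Finset V) : Finset E :=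
  Finset.univ.filter (fun e => ¬ (src e ∈ X ↔ dst e ∈ X))

/-- Kirchhoff's law. -/
def IsFlow [DecidableEq V] [Fintype E] (src dst : E → V) (f : E → ℤ) : Prop :=
  ∀ v : V, ∑ e ∈ Finset.univ.filter (fun e => src e = v), f e
    = ∑ e ∈ Finset.univ.filter (fun e => dst e = v), f e

/-- The degree of `v`; loops are not counted. -/
def properDegree [DecidableEq V] [Fintype E] (src dst : E → V) (v : V) : ℕ :=
  (Finset.univ.filter (fun e => src e ≠ dst e ∧ (src e = v ∨ dst e = v))).card

/-- There is an edge between `x` and `y`, and `x ≠ y`. -/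
def Adjacent (src dst : E → V) (x y : V) : Prop :=
  x ≠ y ∧ ∃ e, (src e = x ∧ dst e = y) ∨ (src e = y ∧ dst e = x)

/-- The edges of `F` are not loops, and different edges of `F` have no common end. -/
def IsMatching (src dst : E → V) (F : Finset E) : Prop :=
  (∀ e ∈ F, src e ≠ dst e) ∧ ∀ e ∈ F, ∀ e' ∈ F, e ≠ e' →
    src e ≠ src e' ∧ src e ≠ dst e' ∧ dst e ≠ src e' ∧ dst e ≠ dst e'

/-- The number of the components of the graph with the vertices `V` and the edges `A`. -/
noncomputable def components (src dst : E → V) (A : Finset E) : ℕ :=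
  Nat.card (SimpleGraph.fromRel
    (fun u v : V => ∃ e ∈ A, src e = u ∧ dst e = v)).ConnectedComponent

/-- The rank of `A` in the cycle matroid of the graph. -/
noncomputable def cycleRank [Fintype V] (src dst : E → V) (A : Finset E) : ℕ :=
  Fintype.card V - components src dst A

/-- The rank of `A` in the bond matroid of the graph (the dual of the cycle matroid). -/
noncomputable def bondRank [Fintype V] [Fintype E] [DecidableEq E] (src dst : E → V)
    (A : Finset E) : ℕ :=
  A.card + cycleRank src dst Aᶜ - cycleRank src dst Finset.univ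

/-- The characteristic polynomial of the bond matroid at the integer `x`. -/
noncomputable def bondCharPoly [Fintype V] [Fintype E] [DecidableEq E] (src dst : E → V)
    (x : ℤ) : ℤ :=
  ∑ A : Finset E, (-1) ^ A.card * x ^ (bondRank src dst Finset.univ - bondRank src dst A)

theorem isFlow_iff [DecidableEq V] [Fintype E] (src dst : E → V) (f : E → ℤ) :
    IsFlow src dst f ↔
      ∀ v, ∑ e, f e * ((if src e = v then 1 else 0) - (if dst e = v then 1 else 0)) = 0 := by
  unfold IsFlow
  refine forall_congr' fun v => ?_
  rw [Finset.sum_filter, Finset.sum_filter, ← sub_eq_zero, ← Finset.sum_sub_distrib]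
  have : ∀ e, (if src e = v then f e else 0) - (if dst e = v then f e else 0)
      = f e * ((if src e = v then 1 else 0) - (if dst e = v then 1 else 0)) := by
    intro e
    by_cases h1 : src e = v <;> by_cases h2 : dst e = v <;> simp [h1, h2]
  rw [Finset.sum_congr rfl (fun e _ => this e)]

theorem nzf [Fintype V] [DecidableEq V] [Fintype E] [DecidableEq E] (src dst : E → V)
    (h : Pool.Agent.TH676.Z.FlowOn src dst ∅ ∅) : NZF src dst := by
  obtain ⟨f, h1, _, h3⟩ := h
  refine ⟨f, fun e => h3 e (Finset.notMem_empty _) (Finset.notMem_empty _), fun x => ?_⟩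
  rw [← h1 x]
  unfold Pool.Agent.TH676.Z.bd
  refine Finset.sum_congr rfl fun e _ => ?_
  unfold ic
  by_cases h4 : src e = x <;> by_cases h5 : dst e = x <;> simp [h4, h5]

theorem charPoly_pos [Fintype V] [DecidableEq V] [Fintype E] [DecidableEq E] (src dst : E → V)
    (f : E → ℤ) (h1 : IsFlow src dst f) (h2 : ∀ e, 1 ≤ |f e| ∧ |f e| ≤ 4) (q : ℕ) (hq : 5 ≤ q) :
    0 < bondCharPoly src dst q :=
  Pool.Agent.TH362.FP.chr_pos src dst f h2 h1 q hq

/-- The chromatic number of the bond matroid: the least positive integer at which the
characteristic polynomial is positive. -/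
noncomputable def chromaticNumber [Fintype V] [Fintype E] [DecidableEq E] (src dst : E → V) : ℕ :=
  sInf {k : ℕ | 0 < k ∧ 0 < bondCharPoly src dst k}

theorem finish [Fintype V] [DecidableEq V] [Fintype E] [DecidableEq E] (src dst : E → V)
    (hfl : Pool.Agent.TH676.Z.FlowOn src dst ∅ ∅) :
    0 < chromaticNumber src dst ∧ chromaticNumber src dst ≤ 5 := by
  obtain ⟨F, hF, hF0⟩ := int_flow src dst (nzf src dst hfl)
  have hF1 := (isFlow_iff src dst F).mpr hF0
  have h5 : 5 ∈ {k : ℕ | 0 < k ∧ 0 < bondCharPoly src dst k} :=
    ⟨by norm_num, charPoly_pos src dst F hF1 hF 5 le_rfl⟩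
  exact ⟨(Nat.sInf_mem ⟨5, h5⟩).1, Nat.sInf_le h5⟩

/-- **Independent sets which can be matched into their neighbourhood.**  Let `2 a + |S| ≤ 125`.  If
every independent set `I` of vertices of degree at least three outside `S` with an injective map
`m : I → V`, `m x` adjacent to `x`, has at most `a` elements, then the chromatic number of the bond
matroid of the bridgeless multigraph is at most five. -/
theorem result :
    ∀ (V E : Type) [Fintype V] [DecidableEq V] [Fintype E] [DecidableEq E] (src dst : E → V)
      (S : Finset V) (a : ℕ), 2 * a + S.card ≤ 125 →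
      (∀ (I : Finset V) (m : V → V), (∀ x ∈ I, x ∉ S ∧ 3 ≤ properDegree src dst x) →
        (∀ x ∈ I, ∀ y ∈ I, ¬ Adjacent src dst x y) → (∀ x ∈ I, Adjacent src dst x (m x)) →
        (∀ x ∈ I, ∀ y ∈ I, m x = m y → x = y) → I.card ≤ a) →
      (∀ Y : Finset V, (boundary src dst Y).card ≠ 1) →
      0 < chromaticNumber src dst ∧ chromaticNumber src dst ≤ 5 := by
  intro V E _ _ _ _ src dst S a ha h hb
  have hcl : Hm src dst := by
    refine ⟨S, fun I m h1 h2 h3 h4 h5 => ?_⟩
    have h6 := h I m (fun x hx => ⟨h1 x hx, h2 x hx⟩) h3 h4 h5
    omega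
  exact finish src dst (flow_of_Hm Pool.Agent.Y335.FL.contract_all hcl
    (fun Y _ => by rw [Finset.sdiff_empty]; exact hb Y))

/-- Bridgeless graphs without `63` disjoint edges. -/
theorem matchingNumber (V E : Type) [Fintype V] [DecidableEq V] [Fintype E] [DecidableEq E]
    (src dst : E → V) (h : ∀ F : Finset E, IsMatching src dst F → F.card ≤ 62)
    (hb : ∀ Y : Finset V, (boundary src dst Y).card ≠ 1) :
    chromaticNumber src dst ≤ 5 := by
  refine (result V E src dst ∅ 62 (by norm_num) (fun I m h1 h2 h3 h4 => ?_) hb).2
  by_cases hI : I = ∅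
  · rw [hI]
    simp
  obtain ⟨x0, hx0⟩ := Finset.nonempty_iff_ne_empty.2 hI
  obtain ⟨_, e0, _⟩ := h3 x0 hx0
  have h5 : ∀ x, ∃ g : E, x ∈ I → (src g = x ∧ dst g = m x) ∨ (src g = m x ∧ dst g = x) := by
    intro x
    by_cases hx : x ∈ I
    · obtain ⟨_, g, hg⟩ := h3 x hx
      exact ⟨g, fun _ => hg⟩
    · exact ⟨e0, fun h => absurd h hx⟩
  choose g hg using h5
  have hxm : ∀ x ∈ I, ∀ y ∈ I, x ≠ m y := fun x hx y hy hxy => h2 y hy x hx (hxy ▸ h3 y hy)
  have key : ∀ x ∈ I, ∀ y ∈ I, x ≠ y → src (g x) ≠ src (g y) ∧ src (g x) ≠ dst (g y) ∧
      dst (g x) ≠ src (g y) ∧ dst (g x) ≠ dst (g y) := by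
    intro x hx y hy hxy
    have q1 : m x ≠ m y := fun h => hxy (h4 x hx y hy h)
    have q2 := hxm x hx y hy
    have q3 : m x ≠ y := fun h => hxm y hy x hx h.symm
    rcases hg x hx with ⟨a, b⟩ | ⟨a, b⟩ <;> rcases hg y hy with ⟨a', b'⟩ | ⟨a', b'⟩ <;>
      rw [a, b, a', b']
    · exact ⟨hxy, q2, q3, q1⟩
    · exact ⟨q2, hxy, q1, q3⟩
    · exact ⟨q3, q1, hxy, q2⟩
    · exact ⟨q1, q3, q2, hxy⟩
  have hinj : Set.InjOn g (I : Set V) := by
    intro x hx y hy hxy
    by_contra hne
    exact (key x hx y hy hne).1 (by rw [hxy])
  have h6 := h (I.image g) ⟨fun a ha => ?_, fun a ha b hb hab => ?_⟩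
  · rwa [Finset.card_image_of_injOn hinj] at h6
  · obtain ⟨x, hx, rfl⟩ := Finset.mem_image.1 ha
    have h7 := hxm x hx x hx
    rcases hg x hx with ⟨a, b⟩ | ⟨a, b⟩ <;> rw [a, b]
    · exact h7
    · exact h7.symm
  · obtain ⟨x, hx, rfl⟩ := Finset.mem_image.1 ha
    obtain ⟨y, hy, rfl⟩ := Finset.mem_image.1 hb
    exact key x hx y hy (fun h => hab (by rw [h]))

end Pool.Agent.Results.MP_9f8812_co.MatchedIndependentSets
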